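import Pool.Agent.H48.RN.Stmts3

/-!
# Project RN: module BAS
-/

set_option autoImplicit false
set_option linter.unusedSectionVars false

namespace Pool.RN

open Polynomial

section

variable {F k : Type} [Field F] [Fintype F] [Field k] [Algebra F k]

/-- the monomials in `x` and the coordinates -/
noncomputable def BAS_mon (F : Type) [Field F] [Fintype F] {k : Type} [Field k] (m : ℕ)
    (Y : (EE k)[X]) : Multiplicative (Option (Fin m) →₀ ℕ) →* EE k where
  toFun s := ev (k := k) m (xx F k) Y (MvPolynomial.monomial (Multiplicative.toAdd s) 1)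
  map_one' := by
    rw [toAdd_one]
    have : (MvPolynomial.monomial (0 : Option (Fin m) →₀ ℕ) (1 : k)) = 1 := rfl
    rw [this, map_one]
  map_mul' s t := by
    rw [← map_mul, MvPolynomial.monomial_mul, mul_one, toAdd_mul]

theorem BAS_ev_none (m : ℕ) (Y : (EE k)[X]) (x : EE k) :
    ev (k := k) m x Y (MvPolynomial.X none) = x := by
  unfold ev
  rw [MvPolynomial.aeval_X]
  rfl

theorem BAS_ev_some (m : ℕ) (Y : (EE k)[X]) (x : EE k) (i : Fin m) :
    ev (k := k) m x Y (MvPolynomial.X (some i)) = Y.coeff i := by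
  unfold ev
  rw [MvPolynomial.aeval_X]
  rfl

theorem BAS_xx_mem : xx F k ∈ KK F k :=
  IntermediateField.subset_adjoin k _ (Set.mem_singleton _)

theorem BAS_mon_mem (m : ℕ) (Y : (EE k)[X]) (s : Multiplicative (Option (Fin m) →₀ ℕ)) :
    BAS_mon F m Y s ∈ LL F Y := by
  have h : ∀ P : PP k m, ev (k := k) m (xx F k) Y P ∈ LL F Y := by
    intro P
    induction P using MvPolynomial.induction_on with
    | C a =>
      have h1 : ev (k := k) m (xx F k) Y (MvPolynomial.C a) = algebraMap k (EE k) a := by
        unfold ev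
        rw [MvPolynomial.aeval_C]
      rw [h1]
      have h2 : algebraMap k (EE k) a ∈ KK F k := (KK F k).algebraMap_mem a
      exact (LL F Y).algebraMap_mem ⟨_, h2⟩
    | add P Q hP hQ => rw [map_add]; exact add_mem hP hQ
    | mul_X P i hP =>
      rw [map_mul]
      refine mul_mem hP ?_
      cases i with
      | none =>
        rw [BAS_ev_none]
        exact (LL F Y).algebraMap_mem ⟨_, BAS_xx_mem⟩
      | some i =>
        rw [BAS_ev_some]
        exact IntermediateField.subset_adjoin _ _ ⟨i, rfl⟩
  exact h _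

theorem BAS_span (M : F[X]) (Y : (EE k)[X]) (hdeg : Y.degree < M.degree) (hM : M ≠ 0)
    (halg : ∀ i, IsAlgebraic (KK F k) (Y.coeff i)) :
    Submodule.span (KK F k) (Set.range (BAS_mon F M.natDegree Y)) =
      Subalgebra.toSubmodule (LL F Y).toSubalgebra := by
  set S : Set (EE k) := Set.range (BAS_mon F M.natDegree Y) with hS
  have h1 : Subalgebra.toSubmodule (Algebra.adjoin (KK F k) S) = Submodule.span (KK F k) S := by
    apply Algebra.adjoin_eq_span_of_subset
    have h2 : Submonoid.closure S = MonoidHom.mrange (BAS_mon F M.natDegree Y) := by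
      rw [hS, ← MonoidHom.coe_mrange, Submonoid.closure_eq]
    rw [h2, MonoidHom.coe_mrange]
    exact Submodule.subset_span
  rw [← h1]
  congr 1
  apply le_antisymm
  · apply Algebra.adjoin_le
    rintro _ ⟨s, rfl⟩
    exact BAS_mon_mem _ Y s
  · have h2 : (LL F Y).toSubalgebra = Algebra.adjoin (KK F k) {z | ∃ i, z = Y.coeff i} := by
      unfold LL
      apply IntermediateField.adjoin_toSubalgebra_of_isAlgebraic
      rintro _ ⟨i, rfl⟩
      exact halg i
    rw [h2]
    apply Algebra.adjoin_le
    rintro _ ⟨i, rfl⟩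
    by_cases hi : i < M.natDegree
    · apply Algebra.subset_adjoin
      refine ⟨Multiplicative.ofAdd (Finsupp.single (some ⟨i, hi⟩) 1), ?_⟩
      have := BAS_ev_some (k := k) M.natDegree Y (xx F k) ⟨i, hi⟩
      exact this
    · have h3 : Y.coeff i = 0 := by
        apply coeff_eq_zero_of_degree_lt
        refine hdeg.trans_le ?_
        rw [degree_eq_natDegree hM]
        exact_mod_cast not_lt.1 hi
      rw [h3]
      exact zero_mem _

end

theorem s_BAS {F k : Type} [Field F] [Fintype F] [Field k] [Algebra F k] [IsAlgClosed k]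
    [Algebra.IsAlgebraic F k] (M : F[X]) (Y : (EE k)[X]) (hM : M.Monic) (hm : 1 ≤ M.natDegree)
    (hY : Good M Y) (hHGL : S_HGL M Y) (hFDL : S_FDL F Y) (hINT : S_INT F Y)
    (hTRX : S_TRX F k) : S_BAS M Y := by
  classical
  have halg : ∀ i, IsAlgebraic (KK F k) (Y.coeff i) := by
    intro i
    have h1 : FiniteDimensional (KK F k) (LL F Y) := hFDL
    have h2 : Y.coeff i ∈ LL F Y := IntermediateField.subset_adjoin _ _ ⟨i, rfl⟩
    have h3 : IsAlgebraic (KK F k) (⟨Y.coeff i, h2⟩ : LL F Y) :=
      Algebra.IsAlgebraic.isAlgebraic _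
    exact (isAlgebraic_algebraMap_iff (algebraMap (LL F Y) (EE k)).injective).2 h3
  have hspan := BAS_span M Y hY.sol.deg hM.ne_zero halg
  have hfd : Module.Finite (KK F k)
      (Submodule.span (KK F k) (Set.range (BAS_mon F M.natDegree Y))) := by
    rw [hspan]
    exact hFDL
  obtain ⟨f, hf1, hf2, hf3⟩ := Submodule.exists_fun_fin_finrank_span_eq (KK F k)
    (Set.range (BAS_mon F M.natDegree Y))
  have hfin : Module.finrank (KK F k)
      (Submodule.span (KK F k) (Set.range (BAS_mon F M.natDegree Y))) = (HH M Y).card := by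
    rw [hspan, hHGL.2.2]
    rfl
  choose t ht using hf1
  set c := finCongr hfin.symm with hc
  refine ⟨Finset.univ.sup (fun i => wt F (Multiplicative.toAdd (t i))),
    fun i => MvPolynomial.monomial (Multiplicative.toAdd (t (c i))) 1, ?_, ?_⟩
  · intro i s hs
    have h1 : s = Multiplicative.toAdd (t (c i)) := by
      have := MvPolynomial.support_monomial_subset hs
      simpa using this
    rw [h1]
    exact Finset.le_sup (f := fun i => wt F (Multiplicative.toAdd (t i))) (Finset.mem_univ (c i))
  · intro p hp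
    have hev : ∀ i, ev M.natDegree (xx F k) Y
        (MvPolynomial.monomial (Multiplicative.toAdd (t (c i))) (1 : k)) = f (c i) := by
      intro i
      rw [← ht]
      rfl
    have hmem : ∀ q : k[X], aeval (xx F k) q ∈ KK F k := by
      intro q
      rw [aeval_eq_sum_range]
      refine sum_mem fun i _ => ?_
      rw [Algebra.smul_def]
      exact mul_mem ((KK F k).algebraMap_mem _) (pow_mem BAS_xx_mem i)
    rw [Fintype.linearIndependent_iff] at hf3
    have h1 := hf3 (fun j => (⟨aeval (xx F k) (p (c.symm j)), hmem _⟩ : KK F k)) (by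
      rw [← hp]
      symm
      refine Fintype.sum_equiv c _ _ ?_
      intro i
      rw [hev, Equiv.symm_apply_apply]
      rfl)
    intro i
    have h2 := h1 (c i)
    rw [Equiv.symm_apply_apply] at h2
    have h3 : aeval (xx F k) (p i) = 0 := congrArg Subtype.val h2
    by_contra h4
    exact (hTRX (p i) h4).1 h3

end Pool.RN
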