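import Pool.Agent.H48.RN.Stmts3

/-!
# Project RN: module PTU
-/

set_option autoImplicit false
set_option linter.unusedSectionVars false

namespace Pool.RN

open Polynomial

section

variable {F : Type} [Field F] [Fintype F]

/-- the resultant with `M`, of fixed size -/
noncomputable def PTU_R (M : F[X]) {L : Type} [CommRing L] [Algebra F L] (Y : L[X]) : L :=
  resultant (M.map (algebraMap F L)) Y M.natDegree M.natDegree

theorem PTU_tw_map (M : F[X]) {L : Type} [CommRing L] [Algebra F L] :
    tw F (M.map (algebraMap F L)) = M.map (algebraMap F L) := by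
  unfold tw
  rw [Polynomial.map_map]
  congr 1
  ext a
  simp

theorem PTU_R_tw (M : F[X]) {L : Type} [Field L] [Algebra F L] (Y : L[X]) :
    PTU_R M (tw F Y) = PTU_R M Y ^ Fintype.card F := by
  unfold PTU_R
  conv_lhs => rw [← PTU_tw_map M (L := L)]
  unfold tw
  rw [resultant_map_map]
  simp

theorem PTU_R_eq (M : F[X]) (hM : M.Monic) {L : Type} [Field L] [Algebra F L] (Y : L[X])
    (hY : Y.natDegree ≤ M.natDegree) :
    PTU_R M Y = resultant (M.map (algebraMap F L)) Y M.natDegree Y.natDegree := by
  unfold PTU_R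
  obtain ⟨j, hj⟩ := Nat.exists_eq_add_of_le hY
  have h1 := resultant_add_right_deg (M.map (algebraMap F L)) Y M.natDegree Y.natDegree j le_rfl
  have h2 : (M.map (algebraMap F L)).coeff M.natDegree = 1 := by
    rw [coeff_map]
    have : M.coeff M.natDegree = 1 := hM
    rw [this, map_one]
  rw [h2, one_pow, one_mul] at h1
  rw [← h1]
  congr 1

theorem PTU_R_mul (M : F[X]) (hM : M.Monic) (hm : 1 ≤ M.natDegree) {L : Type} [Field L]
    [Algebra F L] (x : L) (Y : L[X]) (hY : Y.degree < M.degree)
    (h : M.map (algebraMap F L) ∣ tw F Y - (X - C x) * Y) :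
    PTU_R M Y ^ Fintype.card F =
      (-1) ^ M.natDegree * (aeval x M) * PTU_R M Y := by
  have hML : (M.map (algebraMap F L)).Monic := hM.map _
  have hmL : (M.map (algebraMap F L)).natDegree = M.natDegree := natDegree_map _
  by_cases hY0 : Y = 0
  · subst hY0
    have : PTU_R M (0 : L[X]) = 0 := by
      unfold PTU_R
      rw [resultant_zero_right, zero_pow (by omega), zero_mul]
    rw [this, zero_pow (Fintype.card_ne_zero), mul_zero]
  have hYn : Y.natDegree < M.natDegree := by
    have h1 := hY
    rw [degree_eq_natDegree hY0, degree_eq_natDegree hM.ne_zero] at h1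
    exact_mod_cast h1
  rw [← PTU_R_tw]
  obtain ⟨p, hp⟩ := h
  have h1 : tw F Y = (X - C x) * Y + M.map (algebraMap F L) * p := by
    rw [← hp]; ring
  have hd : ((X - C x) * Y).natDegree = 1 + Y.natDegree := by
    rw [natDegree_mul (X_sub_C_ne_zero x) hY0, natDegree_X_sub_C]
  have htw : (tw F Y).natDegree ≤ Y.natDegree := natDegree_map_le
  have hp0 : p.natDegree + M.natDegree ≤ M.natDegree := by
    by_cases hp0 : p = 0
    · simp [hp0]
    have h2 : (M.map (algebraMap F L) * p).natDegree = M.natDegree + p.natDegree := by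
      rw [hML.natDegree_mul' hp0, hmL]
    have h3 : (tw F Y - (X - C x) * Y).natDegree ≤ M.natDegree := by
      refine (natDegree_sub_le _ _).trans ?_
      rw [hd]
      exact max_le (by omega) (by omega)
    rw [hp, h2] at h3
    omega
  rw [h1]
  unfold PTU_R
  rw [resultant_add_mul_right _ _ _ _ _ hp0 hmL.le]
  have h4 : resultant (M.map (algebraMap F L)) ((X - C x) * Y) M.natDegree M.natDegree =
      PTU_R M ((X - C x) * Y) := rfl
  have h5 : resultant (M.map (algebraMap F L)) Y M.natDegree M.natDegree = PTU_R M Y := rfl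
  rw [h4, h5, PTU_R_eq M hM _ (by rw [hd]; omega), PTU_R_eq M hM Y hYn.le, hd]
  have h6 := resultant_mul_right (M.map (algebraMap F L)) (X - C x) Y M.natDegree hmL.le
  rw [natDegree_X_sub_C] at h6
  rw [h6, resultant_X_sub_C_right _ _ _ hmL.le, eval_map_algebraMap]

theorem PTU_cop (M : F[X]) (hM : M.Monic) {L : Type} [Field L] [Algebra F L] (Y : L[X])
    (hY : Y.natDegree ≤ M.natDegree) : PTU_R M Y ≠ 0 ↔ IsCoprime Y (M.map (algebraMap F L)) := by
  have hML : (M.map (algebraMap F L)).Monic := hM.map _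
  have hmL : (M.map (algebraMap F L)).natDegree = M.natDegree := natDegree_map _
  rw [PTU_R_eq M hM Y hY, ← isUnit_iff_ne_zero, isCoprime_comm,
    ← isUnit_resultant_iff_isCoprime hML, hmL]

end

section

variable {F k : Type} [Field F] [Fintype F] [Field k] [Algebra F k]

/-- the generic polynomial -/
noncomputable def PTU_G (k : Type) [Field k] (m : ℕ) : (PP k m)[X] :=
  ∑ i : Fin m, C (MvPolynomial.X (some i)) * X ^ (i : ℕ)

theorem PTU_G_map (m : ℕ) {L : Type} [Field L] [Algebra k L] (x : L) (Y : L[X])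
    (hY : Y.degree < m) : (PTU_G k m).map (ev (k := k) m x Y : PP k m →+* L) = Y := by
  unfold PTU_G
  rw [Polynomial.map_sum]
  simp only [Polynomial.map_mul, map_C, Polynomial.map_pow, map_X]
  have h1 : ∀ i : Fin m, (ev (k := k) m x Y : PP k m →+* L) (MvPolynomial.X (some i)) =
      Y.coeff i := by
    intro i
    show ev (k := k) m x Y (MvPolynomial.X (some i)) = _
    unfold ev
    rw [MvPolynomial.aeval_X]
    rfl
  simp only [h1]
  by_cases hY0 : Y = 0
  · simp [hY0]
  have h2 : Y.natDegree < m := (natDegree_lt_iff_degree_lt hY0).2 hY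
  conv_rhs => rw [Polynomial.as_sum_range_C_mul_X_pow' Y h2]
  rw [Finset.sum_range]

/-- the relation -/
noncomputable def PTU_P (k : Type) [Field k] [Algebra F k] (M : F[X]) : PP k M.natDegree :=
  resultant (M.map (algebraMap F (PP k M.natDegree))) (PTU_G k M.natDegree) M.natDegree
      M.natDegree ^ (Fintype.card F - 1) -
    (-1) ^ M.natDegree * aeval (MvPolynomial.X none) M

theorem PTU_ev (M : F[X]) (hM : M.Monic) {L : Type} [Field L] [Algebra F L] [Algebra k L]
    [IsScalarTower F k L] (x : L) (Y : L[X]) (hY : Y.degree < M.degree) :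
    ev (k := k) M.natDegree x Y (PTU_P k M) =
      PTU_R M Y ^ (Fintype.card F - 1) - (-1) ^ M.natDegree * aeval x M := by
  have hY' : Y.degree < (M.natDegree : WithBot ℕ) := by
    rw [← degree_eq_natDegree hM.ne_zero]; exact hY
  have h0 : (ev (k := k) M.natDegree x Y : PP k M.natDegree →+* L).comp
      (algebraMap F (PP k M.natDegree)) = algebraMap F L := by
    ext a
    show ev (k := k) M.natDegree x Y (algebraMap F (PP k M.natDegree) a) = algebraMap F L a
    rw [IsScalarTower.algebraMap_apply F k (PP k M.natDegree), AlgHom.commutes,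
      ← IsScalarTower.algebraMap_apply]
  unfold PTU_P
  rw [map_sub, map_pow, map_mul, map_pow, map_neg, map_one]
  have h1 : ev (k := k) M.natDegree x Y (resultant (M.map (algebraMap F (PP k M.natDegree)))
      (PTU_G k M.natDegree) M.natDegree M.natDegree) = PTU_R M Y := by
    have h2 := resultant_map_map (M.map (algebraMap F (PP k M.natDegree)))
      (PTU_G k M.natDegree) M.natDegree M.natDegree
      (ev (k := k) M.natDegree x Y : PP k M.natDegree →+* L)
    rw [PTU_G_map _ x Y hY', Polynomial.map_map, h0] at h2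
    exact h2.symm
  have h3 : ev (k := k) M.natDegree x Y (aeval (MvPolynomial.X none) M) = aeval x M := by
    have h4 : ev (k := k) M.natDegree x Y (MvPolynomial.X none) = x := by
      unfold ev
      rw [MvPolynomial.aeval_X]
      rfl
    have h5 := Polynomial.hom_eval₂ M (algebraMap F (PP k M.natDegree))
      (ev (k := k) M.natDegree x Y : PP k M.natDegree →+* L) (MvPolynomial.X none)
    rw [h0] at h5
    rw [aeval_def, aeval_def]
    refine h5.trans ?_
    show eval₂ _ (ev (k := k) M.natDegree x Y (MvPolynomial.X none)) M = _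
    rw [h4]
  rw [h1, h3]

end

theorem s_PTU {F k : Type} [Field F] [Fintype F] [Field k] [Algebra F k] [IsAlgClosed k]
    [Algebra.IsAlgebraic F k] (M : F[X]) (Y : (EE k)[X]) (hM : M.Monic) (hm : 1 ≤ M.natDegree)
    (hY : Good M Y) (hPTQ : S_PTQ M Y) : S_PTU M Y := by
  intro x1 Y1 hpt hx1
  have hq : 1 < Fintype.card F := Fintype.one_lt_card
  have hdeg : ∀ {L : Type} [Field L] (Z : L[X]), Z.degree < M.degree →
      Z.natDegree ≤ M.natDegree := fun Z hZ => natDegree_le_natDegree hZ.le
  refine ⟨hpt.1, ?_, hPTQ x1 Y1 hpt⟩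
  rw [← PTU_cop M hM Y1 (hdeg Y1 hpt.1)]
  have h1 := PTU_R_mul M hM hm (xx F k) Y hY.sol.deg hY.sol.eq
  have h2 := (PTU_cop M hM Y (hdeg Y hY.sol.deg)).2 hY.sol.cop
  have h3 : PTU_R M Y ^ (Fintype.card F - 1) = (-1) ^ M.natDegree * aeval (xx F k) M := by
    have h4 : PTU_R M Y ^ (Fintype.card F - 1) * PTU_R M Y =
        (-1) ^ M.natDegree * aeval (xx F k) M * PTU_R M Y := by
      rw [← h1, ← pow_succ]
      congr 1
      omega
    exact mul_right_cancel₀ h2 h4
  have h5 := hpt.2 (PTU_P k M) (by rw [PTU_ev M hM _ Y hY.sol.deg, h3, sub_self])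
  rw [PTU_ev M hM _ Y1 hpt.1] at h5
  intro h6
  rw [h6, zero_pow (by omega), zero_sub, neg_eq_zero] at h5
  exact hx1 ((mul_eq_zero.1 h5).resolve_left (pow_ne_zero _ (neg_ne_zero.2 one_ne_zero)))

end Pool.RN
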